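import Pool.Agent.K9h32.HJ.AllK

set_option autoImplicit false

/-!
# The potentials with orbits which tend to infinity are dense: all dimensions `n ≥ 2`, all flat metrics

Let `n ≥ 2`, and `k = 2` or `2 ≤ k ≤ n - 1`. Let `L` be a Lagrangian on `T 𝕋^n × 𝕋` which for all large
velocities is equal to `⟨B v, v⟩ / 2 + f₀(x,t)`, `B` a nondegenerate symmetric matrix; for bounded velocities
`L` is arbitrary. For every `ℤ^n × ℤ`-periodic potential `f₁` of class `C^k`, every direction `u` and every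
`ε > 0` there is a periodic potential `f` of class `C^k` with `‖f - f₁‖_{C^k} ≤ ε` such that `L + f` has an
orbit whose velocity is at least `c t^a`, `a > 0`, and whose direction is always `ε`-close to `u`.

Idea of the proof. `f₀ + f₁` is approximated by a trigonometric polynomial `D`, and a unimodular change of
coordinates moves `u` close to the direction `(1, M, M², …)`. For velocities in a tube around this
direction the Hamilton-Jacobi equation of `D` has approximate solutions `w(x,v,t)` with remainder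
`O(|v|^{-p})` for every `p`; they are finite sums of terms
`c ∏ (k_i·v + m_i)⁻¹ cos (2π(k·x + m t) + φ)`. The map `x ↦ x + Q ∂_v w` conjugates the flow
`x' = v + Q ∂_x w` to a translation with frequency vector `v + Q ∂_v c(v)`. The velocity is increased by
`~ t^{ν-1}` per unit of time along such an orbit, the force needed being produced by a moving bump potential
around the orbit; a slow frequency (bounded monotone coordinate) and the other (nearly badly approximable or,
for `k = 2`, fast) frequencies keep the tubes of different periods of time disjoint on `𝕋^n × 𝕋`.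

The leaves of the proof were written by helpers 21, 98 and 32 (`Pool/Agent/K9h32/HJ`) and, for the parts
shared with `n ≥ 7`, by the helpers named in `Pool/Agent/N980/TL`.
-/

namespace Pool.Agent.Results.MP_6acca1_an.DenseEscapingAllDimensions

open Pool.Agent.N980.TL Pool.Agent.K9h32.HJ

theorem result (n k : ℕ) (hn : 2 ≤ n) (hk : 2 ≤ k) (hkn : k = 2 ∨ k + 1 ≤ n)
    (B : Matrix (Fin n) (Fin n) ℝ) (hB : B.IsSymm) (hdet : B.det ≠ 0)
    (R : ℝ) (L : (Fin n → ℝ) → (Fin n → ℝ) → ℝ → ℝ) (f₀ : (Fin n → ℝ) → ℝ → ℝ) (hf₀ : PotK k f₀)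
    (hL : ∀ x v t, R ≤ ‖v‖ → L x v t = (∑ i, ∑ j, B i j * v i * v j) / 2 + f₀ x t)
    (f₁ : (Fin n → ℝ) → ℝ → ℝ) (hf₁ : PotK k f₁) (u : Fin n → ℝ) (hu : u ≠ 0) (ε : ℝ) (hε : 0 < ε) :
    ∃ (f : (Fin n → ℝ) → ℝ → ℝ) (γ : ℝ → Fin n → ℝ) (c a : ℝ), PotK k f ∧ CloseK k ε f₁ f ∧
      0 < c ∧ 0 < a ∧ (∀ t, 0 ≤ t → c * t ^ a ≤ ‖deriv γ t‖) ∧ (∀ t, 0 ≤ t → R < ‖deriv γ t‖) ∧
      (∀ t, 0 ≤ t → ‖(‖deriv γ t‖⁻¹) • deriv γ t - (‖u‖⁻¹) • u‖ ≤ ε) ∧
      ∀ t, 0 < t → EulerLagrange (fun x v t => L x v t + f x t) γ t := by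
  obtain ⟨r, rfl⟩ : ∃ r, n = r + 2 := ⟨n - 2, by omega⟩
  have hu' : IsUnit B.det := isUnit_iff_ne_zero.2 hdet
  obtain ⟨Q, hQ⟩ : ∃ Q : Matrix (Fin (r + 2)) (Fin (r + 2)) ℝ, Q = B⁻¹ := ⟨_, rfl⟩
  have h1 : B * Q = 1 := by rw [hQ]; exact Matrix.mul_nonsing_inv B hu'
  refine finK_all k r hk (by omega) B Q (fun i j => (hB.apply i j).symm) (fun i j => ?_) R L f₀ hf₀ hL f₁ hf₁ u hu
    ε hε
  have h2 := congrFun (congrFun h1 i) j
  rw [Matrix.mul_apply, Matrix.one_apply] at h2
  exact h2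

end Pool.Agent.Results.MP_6acca1_an.DenseEscapingAllDimensions
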