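import Pool.Agent.K9h32.SM.All

set_option autoImplicit false

/-!
# The potentials with orbits which tend to infinity are dense in `C^k`: every `k`, all dimensions, all flat metrics

Let `n ≥ 2` and `k ≥ 2`, and let `B` be a positive definite matrix. Let `L` be a Lagrangian on `T 𝕋^n × 𝕋` which
for all large velocities is equal to `⟨B v, v⟩ / 2 + f₀(x,t)`; for bounded velocities `L` is arbitrary. For every
`ℤ^n × ℤ`-periodic potential `f₁` of class `C^k`, every direction `u` and every `ε > 0` there is a periodic
potential `f` of class `C^k` with `‖f - f₁‖_{C^k} ≤ ε` such that `L + f` has an orbit whose velocity is at least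
`c t^(1/(k+3))` and whose direction is always `ε`-close to `u`.

Idea of the proof. `f₀ + f₁` is approximated by a trigonometric polynomial `D`. There is an integer vector `q`,
whose dual vector `B⁻¹ q` is close to the direction `u`, such that no frequency of `D` and of the approximate
solutions of its Hamilton-Jacobi equation is orthogonal to `B⁻¹ q`, and an integer vector `p` which is nearly
orthogonal to `q` in the dual metric (Dirichlet's theorem; exact orthogonality is not possible for general `B`).
Along velocities `v ≈ λ B⁻¹ q - θ λ B⁻¹ p`, orthogonal to `p`, only `s = p·x` is slow. The potential is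
`f = D + A(p·x,t) + δ Σ_j χ_j(p·x) b(t) cos (2π q·x + 2π j/3)`. The slow potential `A`, `C^k`-small, has hyperbolic
orbits of `s'' = |p|² ∂_s A(s,t)` which pass once per `T` periods through any one of three gates (the supports of
`χ_j`). The function `b` is of class `C^k` but its derivative of order `k + 1` jumps at the integers: in the gate
number `j` the fast velocity changes by `c_j λ^{-(k+2)} + O(λ^{-(k+3)})`, and the phase of the gate can be chosen
such that the change is positive; the component of the kick along `p` is absorbed by the slow dynamics. Between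
the gates the components of the velocity transversal to `p` are adiabatic invariants up to `O(λ^{-(k+3)})`
(approximate solutions of the Hamilton-Jacobi equation with slow coefficients). The orbit is obtained from nested
intervals of initial conditions, which are mapped over each other by the hyperbolic slow dynamics.

The leaves of the proof (`Pool/Agent/K9h32/SM`, `SP`) were written by helpers 21 (Hamilton-Jacobi equations,
gate), 42 (the force), 65 (Hamilton-Jacobi equations), 67 (passage, iteration, assembly), 72 (hyperbolic slow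
dynamics, gate, passage), 87 (functions of time, choice of `p` and `q`) and 32 (perturbation estimates, one
stage).
-/

namespace Pool.Agent.Results.MP_6acca1_an.DenseEscapingEveryFlatMetric

open Pool.Agent.N980.TL Pool.Agent.K9h32.HJ

theorem result (n k : ℕ) (hn : 2 ≤ n) (hk : 2 ≤ k) (B : Matrix (Fin n) (Fin n) ℝ) (hB : B.PosDef) (R : ℝ)
    (L : (Fin n → ℝ) → (Fin n → ℝ) → ℝ → ℝ) (f₀ : (Fin n → ℝ) → ℝ → ℝ) (hf₀ : PotK k f₀)
    (hL : ∀ x v t, R ≤ ‖v‖ → L x v t = (∑ i, ∑ j, B i j * v i * v j) / 2 + f₀ x t)
    (f₁ : (Fin n → ℝ) → ℝ → ℝ) (hf₁ : PotK k f₁) (u : Fin n → ℝ) (hu : u ≠ 0) (ε : ℝ) (hε : 0 < ε) :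
    ∃ (f : (Fin n → ℝ) → ℝ → ℝ) (γ : ℝ → Fin n → ℝ) (c : ℝ), PotK k f ∧ CloseK k ε f₁ f ∧ 0 < c ∧
      (∀ t, 0 ≤ t → c * t ^ (1 / ((k : ℝ) + 3)) ≤ ‖deriv γ t‖) ∧ (∀ t, 0 ≤ t → R < ‖deriv γ t‖) ∧
      (∀ t, 0 ≤ t → ‖(‖deriv γ t‖⁻¹) • deriv γ t - (‖u‖⁻¹) • u‖ ≤ ε) ∧
      ∀ t, 0 < t → EulerLagrange (fun x v t => L x v t + f x t) γ t :=
  Pool.Agent.K9h32.SM.fin_all n k hn hk B hB R L f₀ hf₀ hL f₁ hf₁ u hu ε hε

end Pool.Agent.Results.MP_6acca1_an.DenseEscapingEveryFlatMetric
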