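import Pool.Agent.K9h32.SM.All

set_option autoImplicit false

/-!
# Velocity growth for `C^k`-generic potentials, for every `k` and all flat metrics, in polynomial time

Let `n ≥ 2` and `k ≥ 2`, let `B` be a positive definite matrix and `φ` any function. Let `L` be a Lagrangian on
`T 𝕋^n × 𝕋` which for all large velocities is equal to `⟨B v, v⟩ / 2 + f₀(x,t)`. There are open dense sets `O_m`
of `ℤ^n × ℤ`-periodic potentials of class `C^k` such that for all `f` in the intersection of these sets (so for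
a residual set of potentials), all `K`, all directions `u` and all `ε > 0` the Lagrangian `L + f` has an orbit
segment with velocity `|v| ≥ K` and direction `ε`-close to `u` which starts with some velocity `v₀` and ends with
a velocity `v₁` with `|v₁| > φ(|v₀|)`, and the time needed is at most `|v₁|^(k+3+ε)`.

The sets are open by Gronwall's lemma, and dense because the potentials `f` for which `L + f` has an orbit which
tends to infinity in a direction close to `u` with `|v(t)| ≥ c t^(1/(k+3))` are dense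
(`DenseEscapingEveryFlatMetric`, `Pool/Agent/K9h32/SM`). The openness is due to helper 21
(`Pool/Agent/K9h32/HJ/GenK.lean`); here with the bound on the time.
-/

open Set

namespace Pool.Agent.Results.MP_6acca1_an.GenericGrowthEveryFlatMetric

open Pool.Agent.N980.TL Pool.Agent.K9h32.HJ

theorem result (n k : ℕ) (hn : 2 ≤ n) (hk : 2 ≤ k) (B : Matrix (Fin n) (Fin n) ℝ) (hB : B.PosDef) (R : ℝ)
    (L : (Fin n → ℝ) → (Fin n → ℝ) → ℝ → ℝ) (f₀ : (Fin n → ℝ) → ℝ → ℝ) (hf₀ : PotK k f₀)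
    (hL : ∀ x v t, R ≤ ‖v‖ → L x v t = (∑ i, ∑ j, B i j * v i * v j) / 2 + f₀ x t) (φ : ℝ → ℝ) :
    ∃ O : ℕ → Set ((Fin n → ℝ) → ℝ → ℝ), (∀ m, OpenDenseK k (O m)) ∧
      ∀ f, (∀ m, f ∈ O m) → ∀ (K : ℝ) (u : Fin n → ℝ) (ε : ℝ), u ≠ 0 → 0 < ε →
        ∃ (γ : ℝ → Fin n → ℝ) (t0 t1 : ℝ), t0 < t1 ∧
        (∀ t ∈ Icc t0 t1, EulerLagrange (fun x v t => L x v t + f x t) γ t) ∧
        (∀ t ∈ Icc t0 t1, K ≤ ‖deriv γ t‖ ∧ ‖(‖deriv γ t‖⁻¹) • deriv γ t - (‖u‖⁻¹) • u‖ ≤ ε) ∧
        φ ‖deriv γ t0‖ < ‖deriv γ t1‖ ∧ t1 - t0 ≤ ‖deriv γ t1‖ ^ ((k : ℝ) + 3 + ε) :=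
  Pool.Agent.K9h32.SM.gen_all n k hn hk B hB R L f₀ hf₀ hL φ

end Pool.Agent.Results.MP_6acca1_an.GenericGrowthEveryFlatMetric
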